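import Pool.Agent.TH703.HU.Stm

/-! # Project HU: the two differential inequalities C10, C11 -/

set_option autoImplicit false

open MeasureTheory Set Metric Filter Topology
open Pool.Agent.TH304.MI Pool.Agent.TH703.HU

noncomputable section

namespace Pool.Agent.TH525.HU

/-- A monotone function `g`, composed with an increasing function `φ` with derivative `φ'`: if
`φ' (g t) * g' t ≥ m` wherever the derivative exists, then `φ (g b) - φ (g a) ≥ m (b - a)`. -/
theorem comp_ge {g φ φ' : ℝ → ℝ} {a b m : ℝ} (hab : a ≤ b) (hg : MonotoneOn g (Icc a b))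
    (hφ : MonotoneOn φ (Icc (g a) (g b)))
    (hφ' : ∀ x ∈ Icc (g a) (g b), HasDerivAt φ (φ' x) x)
    (hd : ∀ t ∈ Ioo a b, ∀ d : ℝ, HasDerivAt g d t → m ≤ φ' (g t) * d) :
    m * (b - a) ≤ φ (g b) - φ (g a) := by
  have hmaps : ∀ t ∈ Icc a b, g t ∈ Icc (g a) (g b) := fun t ht =>
    ⟨hg (left_mem_Icc.2 hab) ht ht.1, hg ht (right_mem_Icc.2 hab) ht.2⟩
  have hmon : MonotoneOn (fun t => φ (g t)) (Icc a b) := fun s hs t ht hst =>
    hφ (hmaps s hs) (hmaps t ht) (hg hs ht hst)
  have hmon' : MonotoneOn (fun t => φ (g t)) (uIcc a b) := by rwa [uIcc_of_le hab]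
  have hint := hmon'.intervalIntegrable_deriv
  have hmem := hmon'.intervalIntegral_deriv_mem_uIcc
  have h0 : 0 ≤ φ (g b) - φ (g a) :=
    sub_nonneg.2 (hmon (left_mem_Icc.2 hab) (right_mem_Icc.2 hab) hab)
  rw [uIcc_of_le h0] at hmem
  refine le_trans ?_ hmem.2
  have hconst : ∫ _t in a..b, m = m * (b - a) := by
    rw [intervalIntegral.integral_const, smul_eq_mul, mul_comm]
  rw [← hconst]
  apply intervalIntegral.integral_mono_ae_restrict hab (by simp) hint
  rw [Filter.EventuallyLE, ← restrict_Ioo_eq_restrict_Icc, ae_restrict_iff' measurableSet_Ioo]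
  filter_upwards [hg.ae_differentiableWithinAt_of_mem] with t ht ht2
  have hn : Icc a b ∈ 𝓝 t := Icc_mem_nhds ht2.1 ht2.2
  have hD : HasDerivAt g (deriv g t) t :=
    ((ht (Ioo_subset_Icc_self ht2)).differentiableAt hn).hasDerivAt
  have h2 : HasDerivAt (fun t => φ (g t)) (φ' (g t) * deriv g t) t :=
    (hφ' (g t) (hmaps t (Ioo_subset_Icc_self ht2))).comp t hD
  rw [h2.deriv]
  exact hd t ht2 _ hD

theorem deriv_nonneg {g : ℝ → ℝ} {a b t d : ℝ} (hg : MonotoneOn g (Icc a b)) (ht : t ∈ Ioo a b)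
    (hd : HasDerivAt g d t) : 0 ≤ d := by
  have h := hg.derivWithin_nonneg (x := t)
  rw [derivWithin_of_mem_nhds (Icc_mem_nhds ht.1 ht.2), hd.deriv] at h
  exact h

theorem c10 : S_C10 := by
  intro g r R c θ Λ K hrR hg _ h0 hc hθ hθ1 hΛ hd h1 h2
  by_contra hne
  have hr : r ∈ Icc r R := left_mem_Icc.2 hrR.le
  have hR : R ∈ Icc r R := right_mem_Icc.2 hrR.le
  have hpos : 0 < g r := lt_of_le_of_ne (h0 r hr) (Ne.symm hne)
  have key : (1 - θ) * c / 4 * (R - r) ≤ g R ^ (1 - θ) - g r ^ (1 - θ) := by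
    refine comp_ge (φ := fun x => x ^ (1 - θ)) (φ' := fun x => (1 - θ) * x ^ (1 - θ - 1)) hrR.le hg
      (fun x hx y _ hxy => Real.rpow_le_rpow (hpos.le.trans hx.1) hxy (by linarith))
      (fun x hx => Real.hasDerivAt_rpow_const (Or.inl (hpos.trans_le hx.1).ne')) ?_
    intro t ht d hdt
    have htI := Ioo_subset_Icc_self ht
    have hgt : 0 < g t := hpos.trans_le (hg hr htI htI.1)
    have e := hd t ht d hdt
    have e1 : g t ^ (1 - θ) ≤ g R ^ (1 - θ) :=
      Real.rpow_le_rpow hgt.le (hg htI hR htI.2) (by linarith)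
    have e2 : Λ * g t ^ (1 - θ) ≤ c / 2 := (mul_le_mul_of_nonneg_left e1 hΛ).trans h1
    set u := g t ^ (1 - θ - 1) with hu
    have hup : 0 < u := Real.rpow_pos_of_pos hgt _
    have e3 : g t ^ θ * u = 1 := by
      rw [hu, ← Real.rpow_add hgt]
      have : θ + (1 - θ - 1) = 0 := by ring
      rw [this, Real.rpow_zero]
    have e4 : g t * u = g t ^ (1 - θ) := by
      have := Real.rpow_add hgt 1 (1 - θ - 1)
      rw [Real.rpow_one] at this
      rw [hu, ← this]
      congr 1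
      ring
    have e5 : c ≤ 2 * (u * d) + Λ * g t ^ (1 - θ) := by
      have := mul_le_mul_of_nonneg_right e hup.le
      rw [← e4]
      nlinarith [this, e3]
    have e6 : c / 4 ≤ u * d := by linarith
    have e7 : (1 - θ) * (c / 4) ≤ (1 - θ) * (u * d) := mul_le_mul_of_nonneg_left e6 (by linarith)
    calc (1 - θ) * c / 4 = (1 - θ) * (c / 4) := by ring
      _ ≤ (1 - θ) * (u * d) := e7
      _ = (1 - θ) * u * d := by ring
  have h3 : 0 ≤ g r ^ (1 - θ) := Real.rpow_nonneg hpos.le _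
  have h4 : (1 - θ) * c / 4 * (R - r) = (1 - θ) * c * (R - r) / 4 := by ring
  linarith

theorem c11 : S_C11 := by
  intro g Λ κ K hg _ h0 hΛ hκ hκ1 hκ2 h1 hd
  have hΛ0 : 0 < Λ := by linarith
  -- basic facts
  have hab : MonotoneOn g (Icc (59 / 100) (3 / 5)) :=
    hg.mono (Icc_subset_Icc (by norm_num) le_rfl)
  have hab' : MonotoneOn g (Icc (29 / 50) (59 / 100)) :=
    hg.mono (Icc_subset_Icc le_rfl (by norm_num))
  have mA : (29 / 50 : ℝ) ∈ Icc (29 / 50 : ℝ) (3 / 5) := by constructor <;> norm_num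
  have mB : (59 / 100 : ℝ) ∈ Icc (29 / 50 : ℝ) (3 / 5) := by constructor <;> norm_num
  have mC : (3 / 5 : ℝ) ∈ Icc (29 / 50 : ℝ) (3 / 5) := by constructor <;> norm_num
  have hdn : ∀ t ∈ Ioo (29 / 50 : ℝ) (3 / 5), ∀ d : ℝ, HasDerivAt g d t → 0 ≤ d :=
    fun t ht d hdt => deriv_nonneg hg ht hdt
  -- `Λ √g ≤ 0.656`
  have hsq : ∀ t ∈ Icc (29 / 50 : ℝ) (3 / 5), Λ * Real.sqrt (g t) ≤ 656 / 1000 := by
    intro t ht
    have e1 : g t ≤ g (3 / 5) := hg ht mC ht.2
    have e2 : (Λ * Real.sqrt (g t)) ^ 2 ≤ (656 / 1000) ^ 2 := by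
      rw [mul_pow, Real.sq_sqrt (h0 t ht)]
      have : Λ ^ 2 * g t ≤ Λ ^ 2 * g (3 / 5) := mul_le_mul_of_nonneg_left e1 (by positivity)
      norm_num
      linarith
    exact le_of_sq_le_sq e2 (by norm_num)
  -- (i)
  have step1 : g (59 / 100) < 100 * κ ^ 2 := by
    by_contra hcon
    push Not at hcon
    have hpos : 0 < g (59 / 100) := lt_of_lt_of_le (by positivity) hcon
    have key : 6 / 100 * ((3 / 5 : ℝ) - 59 / 100) ≤
        Real.sqrt (g (3 / 5)) - Real.sqrt (g (59 / 100)) := by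
      refine comp_ge (φ := Real.sqrt) (φ' := fun x => 1 / (2 * Real.sqrt x)) (by norm_num) hab
        (fun x _ y _ hxy => Real.sqrt_le_sqrt hxy)
        (fun x hx => Real.hasDerivAt_sqrt (hpos.trans_le hx.1).ne') ?_
      intro t ht d hdt
      have ht' : t ∈ Ioo (29 / 50 : ℝ) (3 / 5) := ⟨by linarith [ht.1], ht.2⟩
      have htI := Ioo_subset_Icc_self ht'
      have hgt : g (59 / 100) ≤ g t := hg mB htI ht.1.le
      have hgt0 : 0 < g t := hpos.trans_le hgt
      have e := hd t ht' d hdt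
      have hd0 := hdn t ht' d hdt
      have hs := hsq t htI
      set x := Real.sqrt (g t) with hx
      have hx0 : 0 < x := Real.sqrt_pos.2 hgt0
      have hx2 : g t = x ^ 2 := (Real.sq_sqrt hgt0.le).symm
      have hxκ : 10 * κ ≤ x := by
        rw [hx]
        apply Real.le_sqrt_of_sq_le
        calc (10 * κ) ^ 2 = 100 * κ ^ 2 := by ring
          _ ≤ g t := hcon.trans hgt
      rw [hx2] at e
      set p := 2 * d + Λ * x ^ 2 with hp
      have hp0 : 0 ≤ p := by positivity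
      have hp9 : 9 / 10 * x ≤ p := by
        by_contra hlt
        push Not at hlt
        have a1 : p ^ 2 ≤ (9 / 10 * x) ^ 2 := by
          apply pow_le_pow_left₀ hp0 hlt.le
        have a2 : κ * p ≤ x / 10 * (9 / 10 * x) :=
          mul_le_mul (by linarith) hlt.le hp0 (by positivity)
        nlinarith [mul_pos hx0 hx0]
      have h2d : 244 / 1000 * x ≤ 2 * d := by
        have : Λ * x ^ 2 ≤ 656 / 1000 * x := by nlinarith
        linarith
      rw [div_mul_eq_mul_div, one_mul, le_div_iff₀ (by positivity)]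
      linarith
    have e3 : Λ * Real.sqrt (g (3 / 5)) ≤ 656 / 1000 := hsq _ mC
    have e4 : 2000 * Real.sqrt (g (3 / 5)) ≤ Λ * Real.sqrt (g (3 / 5)) :=
      mul_le_mul_of_nonneg_right hΛ (Real.sqrt_nonneg _)
    have e5 := Real.sqrt_nonneg (g (59 / 100))
    norm_num at key
    linarith
  -- (ii)
  rcases (h0 _ mA).eq_or_lt with hz | hpos
  · rw [← hz]; positivity
  have hB : 0 < g (59 / 100) := hpos.trans_le (hg mA mB (by norm_num))
  have key : 1 / (80 * κ) * ((59 / 100 : ℝ) - 29 / 50) ≤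
      Real.log (g (59 / 100)) - Real.log (g (29 / 50)) := by
    refine comp_ge (φ := Real.log) (φ' := fun x => x⁻¹) (by norm_num) hab'
      (fun x hx y _ hxy => Real.log_le_log (hpos.trans_le hx.1) hxy)
      (fun x hx => Real.hasDerivAt_log (hpos.trans_le hx.1).ne') ?_
    intro t ht d hdt
    have ht' : t ∈ Ioo (29 / 50 : ℝ) (3 / 5) := ⟨ht.1, by linarith [ht.2]⟩
    have htI := Ioo_subset_Icc_self ht'
    have hgt0 : 0 < g t := hpos.trans_le (hg mA htI ht.1.le)
    have hgt1 : g t < 100 * κ ^ 2 := (hg htI mB ht.2.le).trans_lt step1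
    have e := hd t ht' d hdt
    have hd0 := hdn t ht' d hdt
    set y := g t with hy
    set p := 2 * d + Λ * y with hp
    have hp0 : 0 ≤ p := by positivity
    have hpy : y / (20 * κ) ≤ p := by
      by_contra hlt
      push Not at hlt
      have a1 : p ^ 2 ≤ (y / (20 * κ)) ^ 2 := pow_le_pow_left₀ hp0 hlt.le 2
      have a2 : κ * p ≤ κ * (y / (20 * κ)) := mul_le_mul_of_nonneg_left hlt.le hκ.le
      have a3 : κ * (y / (20 * κ)) = y / 20 := by field_simp
      have a4 : (y / (20 * κ)) ^ 2 ≤ y / 4 := by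
        rw [div_pow, div_le_iff₀ (by positivity)]
        nlinarith
      nlinarith
    have hΛy : Λ * y ≤ y / (40 * κ) := by
      have : Λ ≤ 1 / (40 * κ) := by
        rw [le_div_iff₀ (by positivity)]
        rw [le_div_iff₀ (by positivity)] at hκ1
        linarith
      calc Λ * y ≤ 1 / (40 * κ) * y := mul_le_mul_of_nonneg_right this hgt0.le
        _ = y / (40 * κ) := by ring
    have h2d : y / (40 * κ) ≤ 2 * d := by
      have : y / (20 * κ) = y / (40 * κ) + y / (40 * κ) := by field_simp; ring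
      linarith
    have h3 : y / (80 * κ) ≤ d := by
      have : y / (40 * κ) = 2 * (y / (80 * κ)) := by field_simp; ring
      linarith
    have h4 : y⁻¹ * (y / (80 * κ)) ≤ y⁻¹ * d := mul_le_mul_of_nonneg_left h3 (by positivity)
    have h5 : y⁻¹ * (y / (80 * κ)) = 1 / (80 * κ) := by field_simp
    linarith
  have h125 : (125 : ℝ) ≤ 1 / (80 * κ) * ((59 / 100 : ℝ) - 29 / 50) := by
    have : (12500 : ℝ) ≤ 1 / (80 * κ) := by
      rw [le_div_iff₀ (by positivity)]
      have : κ ≤ 1 / 1000000 := by norm_num at hκ2 ⊢; exact hκ2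
      linarith
    calc (125 : ℝ) = 12500 * ((59 / 100 : ℝ) - 29 / 50) := by norm_num
      _ ≤ 1 / (80 * κ) * ((59 / 100 : ℝ) - 29 / 50) :=
        mul_le_mul_of_nonneg_right this (by norm_num)
  have h6 : Real.log (g (29 / 50)) + 125 ≤ Real.log (g (59 / 100)) := by linarith
  have h7 : g (29 / 50) * Real.exp 125 ≤ g (59 / 100) := by
    have := Real.exp_le_exp.2 h6
    rwa [Real.exp_add, Real.exp_log hpos, Real.exp_log hB] at this
  have h8 : (10 : ℝ) ^ 8 ≤ Real.exp 125 := by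
    have h1 : (2 : ℝ) ≤ Real.exp 1 := by
      have := Real.add_one_le_exp (1 : ℝ); linarith
    have h2 : Real.exp 125 = Real.exp 1 ^ 125 := by rw [← Real.exp_nat_mul]; norm_num
    rw [h2]
    calc (10 : ℝ) ^ 8 ≤ 2 ^ 125 := by norm_num
      _ ≤ Real.exp 1 ^ 125 := pow_le_pow_left₀ (by norm_num) h1 _
  have h9 : g (29 / 50) * 10 ^ 8 ≤ 100 * κ ^ 2 :=
    (mul_le_mul_of_nonneg_left h8 hpos.le).trans (h7.trans step1.le)
  rw [le_div_iff₀ (by positivity)]
  norm_num at h9 ⊢
  linarith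

end Pool.Agent.TH525.HU
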